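import Pool.Agent.Helper95.C2.Spec
import Pool.Graph.R_pool_sql_team_seeded_f72693b1.W269.BL.PEL1
import Pool.Graph.R_pool_sql_team_seeded_f72693b1.W269.BL.RED

set_option autoImplicit false

/-!
# Swarm C2, part SGN: the sign of the Frobenius permutation of the roots
-/

open Polynomial

namespace Pool.Agent.Helper31.C2.SGN

open Pool.Agent.Helper95.C2

universe u v

/-- The conjugates of a root of an irreducible polynomial over a finite field. -/
lemma roots_frob {K Ω : Type u} [Field K] [Fintype K] [Field Ω] [Algebra K Ω] (P : K[X])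
    (hP : P.Monic) (hI : Irreducible P) (β : Ω) (hβ : aeval β P = 0) :
    β ^ Fintype.card K ^ P.natDegree = β ∧
      ∀ i j : Fin P.natDegree, β ^ Fintype.card K ^ (i : ℕ) = β ^ Fintype.card K ^ (j : ℕ) →
        i = j := by
  classical
  haveI : Fact (Irreducible P) := ⟨hI⟩
  set pb := AdjoinRoot.powerBasis hP.ne_zero with hpb
  haveI : Module.Finite K (AdjoinRoot P) := pb.finite
  haveI : Finite (AdjoinRoot P) := Module.finite_of_finite K
  haveI : Fintype (AdjoinRoot P) := Fintype.ofFinite _
  have hgen : pb.gen = AdjoinRoot.root P := AdjoinRoot.powerBasis_gen hP.ne_zero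
  have hdim : pb.dim = P.natDegree := rfl
  have hfin : Module.finrank K (AdjoinRoot P) = P.natDegree := by rw [pb.finrank, hdim]
  let ψ : AdjoinRoot P →ₐ[K] Ω := AdjoinRoot.liftAlgHom P (Algebra.ofId K Ω) β hβ
  have hψ : ψ pb.gen = β := by
    rw [hgen]
    exact AdjoinRoot.liftAlgHom_root P (Algebra.ofId K Ω) β hβ
  have hψinj : Function.Injective ψ := ψ.toRingHom.injective
  constructor
  · have h5 : Fintype.card K ^ P.natDegree = Fintype.card (AdjoinRoot P) := by
      rw [← hfin]; exact (Module.card_eq_pow_finrank (K := K) (V := AdjoinRoot P)).symm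
    rw [← hψ, ← map_pow, h5, FiniteField.pow_card]
  · intro i j hij
    have hb := (FiniteField.bijective_frobeniusAlgHom_pow K (AdjoinRoot P)).1
    have h1 : (FiniteField.frobeniusAlgHom K (AdjoinRoot P)) ^ (i : ℕ) =
        (FiniteField.frobeniusAlgHom K (AdjoinRoot P)) ^ (j : ℕ) := by
      refine PowerBasis.algHom_ext (S' := AdjoinRoot P) pb ?_
      rw [AlgHom.coe_pow, AlgHom.coe_pow, FiniteField.coe_frobeniusAlgHom, pow_iterate, pow_iterate]
      apply hψinj
      rw [map_pow, map_pow, hψ]
      exact hij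
    have h3 := @hb ⟨i, by rw [hfin]; exact i.2⟩ ⟨j, by rw [hfin]; exact j.2⟩ h1
    have h4 := congrArg (fun z : Fin (Module.finrank K (AdjoinRoot P)) => (z : ℕ)) h3
    exact Fin.ext h4

/-- The sign in the irreducible case. -/
lemma irr {K Ω : Type u} [Field K] [Fintype K] [Field Ω] [Algebra K Ω] (P : K[X])
    (hP : P.Monic) (hI : Irreducible P) {ι : Type v} [Fintype ι] [DecidableEq ι] (α : ι → Ω)
    (σ : Equiv.Perm ι) (hα : Function.Injective α)
    (hf : P.map (algebraMap K Ω) = ∏ i, (X - C (α i)))
    (hσ : ∀ i, α i ^ Fintype.card K = α (σ i)) :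
    ((Equiv.Perm.sign σ : ℤˣ) : ℤ) = (-1) ^ (P.natDegree - 1) := by
  have hcard : Fintype.card ι = P.natDegree := by
    rw [← hP.natDegree_map (algebraMap K Ω), hf, natDegree_prod_of_monic _ _ fun i _ =>
      monic_X_sub_C _]
    simp
  have hd0 : 0 < P.natDegree := hI.natDegree_pos
  have hne : Nonempty ι := by
    rw [← Fintype.card_pos_iff, hcard]
    exact hd0
  obtain ⟨i₀⟩ := hne
  have hβ : aeval (α i₀) P = 0 := by
    rw [aeval_def, ← eval_map, hf, eval_prod]
    exact Finset.prod_eq_zero (Finset.mem_univ i₀) (by simp)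
  obtain ⟨h1, h2⟩ := roots_frob P hP hI (α i₀) hβ
  have hpow : ∀ k : ℕ, α ((σ ^ k) i₀) = α i₀ ^ Fintype.card K ^ k := by
    intro k
    induction k with
    | zero => simp
    | succ k ih =>
      rw [pow_succ', Equiv.Perm.mul_apply, ← hσ, ih, ← pow_mul, ← pow_succ]
  have hinj : Function.Injective (fun k : Fin P.natDegree => (σ ^ (k : ℕ)) i₀) := by
    intro i j hij
    apply h2
    rw [← hpow, ← hpow]
    exact congrArg α hij
  have hbij : Function.Bijective (fun k : Fin P.natDegree => (σ ^ (k : ℕ)) i₀) := by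
    rw [Fintype.bijective_iff_injective_and_card]
    exact ⟨hinj, by rw [Fintype.card_fin, hcard]⟩
  have h3 := Equiv.Perm.sign_eq_sign_of_equiv (finRotate P.natDegree) σ
    (Equiv.ofBijective _ hbij) (by
      intro k
      apply hα
      change α ((σ ^ ((finRotate P.natDegree k : Fin P.natDegree) : ℕ)) i₀) =
        α (σ ((σ ^ (k : ℕ)) i₀))
      rw [← hσ, hpow, hpow]
      exact (Pool.Agent.W269.BL.PEL1.rot (α i₀) (Fintype.card K) P.natDegree h1 k).symm)
  rw [← h3, sign_finRotate]
  push_cast
  rfl

/-- The value at the Frobenius conjugate. -/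
lemma eval_frob {K Ω : Type u} [Field K] [Fintype K] [Field Ω] [Algebra K Ω] (P : K[X]) (x : Ω) :
    (P.map (algebraMap K Ω)).eval (x ^ Fintype.card K) =
      ((P.map (algebraMap K Ω)).eval x) ^ Fintype.card K := by
  have h1 := FiniteField.expand_card P
  have h2 := congrArg (fun f : K[X] => (f.map (algebraMap K Ω)).eval x) h1
  simp only [map_expand, expand_eval, Polynomial.map_pow, eval_pow] at h2
  exact h2

theorem aux {K Ω : Type u} [Field K] [Fintype K] [Field Ω] [Algebra K Ω] : ∀ (n : ℕ) (f : K[X])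
    (ι : Type v) [Fintype ι] [DecidableEq ι] (α : ι → Ω) (σ : Equiv.Perm ι),
    Fintype.card ι = n → f.Monic → Function.Injective α →
    f.map (algebraMap K Ω) = ∏ i, (X - C (α i)) →
    (∀ i, α i ^ Fintype.card K = α (σ i)) →
    ((Equiv.Perm.sign σ : ℤˣ) : ℤ) = (-1) ^ n * lam f := by
  classical
  intro n
  induction n using Nat.strong_induction_on with
  | _ n ih =>
  intro f ι _ _ α σ hn hfm hα hf hσ
  have hdeg : f.natDegree = n := by
    rw [← hfm.natDegree_map (algebraMap K Ω), hf, natDegree_prod_of_monic _ _ fun i _ =>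
      monic_X_sub_C _]
    simp [hn]
  rcases Nat.eq_zero_or_pos n with h0 | hpos
  · subst h0
    have hf1 : f = 1 := hfm.natDegree_eq_zero.1 hdeg
    have hemp : IsEmpty ι := Fintype.card_eq_zero_iff.1 hn
    have hs : σ = 1 := Subsingleton.elim _ _
    rw [hs, hf1]
    have h1 : lam (1 : K[X]) = 1 := by
      have := Pool.Agent.W269.BL.RED.lam_C (K := K) (a := 1) one_ne_zero
      rwa [C_1] at this
    rw [h1]
    simp
  · obtain ⟨P, hPm, hPI, g, hPg⟩ := exists_monic_irreducible_factor f
      (not_isUnit_of_natDegree_pos f (by omega))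
    have hgm : g.Monic := by
      rw [hPg] at hfm
      exact hPm.of_mul_monic_left hfm
    have hPd : 0 < P.natDegree := hPI.natDegree_pos
    have hdegs : P.natDegree + g.natDegree = n := by
      rw [← hPm.natDegree_mul hgm, ← hPg, hdeg]
    set p : ι → Prop := fun i => (P.map (algebraMap K Ω)).eval (α i) = 0 with hp
    have hpσ : ∀ i, p (σ i) ↔ p i := by
      intro i
      change (P.map (algebraMap K Ω)).eval (α (σ i)) = 0 ↔ (P.map (algebraMap K Ω)).eval (α i) = 0
      rw [← hσ, eval_frob, pow_eq_zero_iff Fintype.card_ne_zero]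
    have hprod : P.map (algebraMap K Ω) * g.map (algebraMap K Ω) = ∏ i, (X - C (α i)) := by
      rw [← Polynomial.map_mul, ← hPg, hf]
    have hnp : ∀ i, ¬ p i → (g.map (algebraMap K Ω)).eval (α i) = 0 := by
      intro i hi
      have h1 := congrArg (eval (α i)) hprod
      rw [eval_mul, eval_prod, Finset.prod_eq_zero (Finset.mem_univ i) (by simp)] at h1
      exact (mul_eq_zero.1 h1).resolve_left hi
    have hd1 : ∏ i : {i // p i}, (X - C (α i)) ∣ P.map (algebraMap K Ω) := by
      refine Fintype.prod_dvd_of_coprime (pairwise_coprime_X_sub_C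
        (hα.comp Subtype.val_injective)) fun i => ?_
      exact dvd_iff_isRoot.2 i.2
    have hd2 : ∏ i : {i // ¬ p i}, (X - C (α i)) ∣ g.map (algebraMap K Ω) := by
      refine Fintype.prod_dvd_of_coprime (pairwise_coprime_X_sub_C
        (hα.comp Subtype.val_injective)) fun i => ?_
      exact dvd_iff_isRoot.2 (hnp i i.2)
    have hm1 : (∏ i : {i // p i}, (X - C (α i))).Monic := monic_prod_of_monic _ _ fun i _ =>
      monic_X_sub_C _
    have hm2 : (∏ i : {i // ¬ p i}, (X - C (α i))).Monic := monic_prod_of_monic _ _ fun i _ =>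
      monic_X_sub_C _
    have hn1 : (∏ i : {i // p i}, (X - C (α i))).natDegree = Fintype.card {i // p i} := by
      rw [natDegree_prod_of_monic _ _ fun i _ => monic_X_sub_C _]
      simp
    have hn2 : (∏ i : {i // ¬ p i}, (X - C (α i))).natDegree = Fintype.card {i // ¬ p i} := by
      rw [natDegree_prod_of_monic _ _ fun i _ => monic_X_sub_C _]
      simp
    have hle1 : Fintype.card {i // p i} ≤ P.natDegree := by
      rw [← hn1, ← hPm.natDegree_map (algebraMap K Ω)]
      exact natDegree_le_of_dvd hd1 (hPm.map _).ne_zero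
    have hle2 : Fintype.card {i // ¬ p i} ≤ g.natDegree := by
      rw [← hn2, ← hgm.natDegree_map (algebraMap K Ω)]
      exact natDegree_le_of_dvd hd2 (hgm.map _).ne_zero
    have hsum : Fintype.card {i // p i} + Fintype.card {i // ¬ p i} = n := by
      rw [Fintype.card_subtype_compl, hn]
      have := Fintype.card_subtype_le p
      omega
    have he1 : P.map (algebraMap K Ω) = ∏ i : {i // p i}, (X - C (α i)) := by
      refine (eq_of_monic_of_dvd_of_natDegree_le hm1 (hPm.map _) hd1 ?_)
      rw [hn1, hPm.natDegree_map]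
      omega
    have he2 : g.map (algebraMap K Ω) = ∏ i : {i // ¬ p i}, (X - C (α i)) := by
      refine (eq_of_monic_of_dvd_of_natDegree_le hm2 (hgm.map _) hd2 ?_)
      rw [hn2, hgm.natDegree_map]
      omega
    have hs1 := irr P hPm hPI (fun i : {i // p i} => α i) (σ.subtypePerm hpσ)
      (hα.comp Subtype.val_injective) he1 (fun i => hσ i)
    have hs2 := ih (Fintype.card {i // ¬ p i}) (by omega) g {i // ¬ p i}
      (fun i => α i) (σ.subtypePerm fun i => not_congr (hpσ i)) rfl hgm
      (hα.comp Subtype.val_injective) he2 (fun i => hσ i)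
    have hσe : σ = (σ.subtypePerm hpσ).subtypeCongr (σ.subtypePerm fun i => not_congr (hpσ i)) := by
      ext i
      rw [Equiv.Perm.subtypeCongr.apply]
      split_ifs <;> rfl
    rw [hσe, Equiv.Perm.sign_subtypeCongr, Units.val_mul, hs1, hs2, hPg]
    have hlm : lam (P * g) = lam P * lam g := Pool.Agent.W269.BL.RED.lam_mul hPm.ne_zero hgm.ne_zero
    have hlP : lam P = -1 := by
      obtain ⟨b, _, hb⟩ := UniqueFactorizationMonoid.factors_eq_singleton_of_irreducible hPI
      change (-1 : ℤ) ^ Multiset.card (UniqueFactorizationMonoid.factors P) = -1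
      rw [hb]
      simp
    rw [hlm, hlP]
    have hcn : Fintype.card {i // ¬ p i} = g.natDegree := by omega
    rw [hcn, ← hdegs, pow_add]
    have h7 : (-1 : ℤ) ^ P.natDegree = (-1) ^ (P.natDegree - 1) * (-1) := by
      rw [← pow_succ]
      congr 1
      omega
    rw [h7]
    ring

theorem main : S_SGN.{u} := by
  intro K Ω _ _ _ _ f N α σ hf hα hfα hσ
  exact aux N f (Fin N) α σ (Fintype.card_fin N) hf hα hfα hσ

end Pool.Agent.Helper31.C2.SGN
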