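import Pool.Agent.Helper31.C2.SGN

set_option autoImplicit false

/-!
# Swarm C2, part TRC: the resultant with `1 + 4 y` and the trace
-/

open Polynomial

namespace Pool.Agent.Helper31.C2.TRC

open Pool.Agent.Helper95.C2 Pool.Agent.Helper31.C2.SGN

universe u

lemma rs_X_sub_C {S : Type u} [CommRing S] [Nontrivial S] (a : S) (g : S[X]) :
    rs (X - C a) g = g.eval a := by
  have h1 : (X - C a) ∣ g - C (g.eval a) := by
    rw [dvd_iff_isRoot]
    simp
  rw [rs_congr (monic_X_sub_C a) h1, rs_C, natDegree_X_sub_C, pow_one]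

lemma rs_prod {S : Type u} [CommRing S] [Nontrivial S] {ι : Type} (s : Finset ι) (a : ι → S)
    (g : S[X]) : rs (∏ i ∈ s, (X - C (a i))) g = ∏ i ∈ s, g.eval (a i) := by
  classical
  induction s using Finset.induction_on with
  | empty =>
    rw [Finset.prod_empty, Finset.prod_empty, rs_comm, rs_one]
    simp
  | insert j s hj ih =>
    rw [Finset.prod_insert hj, Finset.prod_insert hj, rs_mul_left (monic_X_sub_C _)
      (monic_prod_of_monic _ _ fun i _ => monic_X_sub_C _), ih, rs_X_sub_C]

lemma prod_one_add_four {S : Type u} [CommRing S] {ι : Type} (s : Finset ι) (v : ι → S) :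
    ∃ t, ∏ i ∈ s, (1 + 4 * v i) = 1 + 4 * ∑ i ∈ s, v i + 8 * t := by
  classical
  induction s using Finset.induction_on with
  | empty => exact ⟨0, by simp⟩
  | insert j s hj ih =>
    obtain ⟨t, ht⟩ := ih
    refine ⟨t + 2 * v j * ∑ i ∈ s, v i + 4 * v j * t, ?_⟩
    rw [Finset.prod_insert hj, Finset.sum_insert hj, ht]
    ring

lemma exists_z {S : Type u} [CommRing S] (h4 : ¬ IsUnit (4 : S)) (f y : S[X]) (hf : f.Monic) :
    ∃ z : S, rs f (1 + 4 * y) = 1 + 4 * z := by
  set I := Ideal.span {(4 : S)} with hI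
  have hnt : Nontrivial (S ⧸ I) := by
    refine Ideal.Quotient.nontrivial_iff.2 ?_
    rw [hI, ne_eq, Ideal.span_singleton_eq_top]
    exact h4
  have h40 : (Ideal.Quotient.mk I) 4 = 0 :=
    Ideal.Quotient.eq_zero_iff_mem.2 (Ideal.mem_span_singleton_self _)
  have h1 : Ideal.Quotient.mk I (rs f (1 + 4 * y)) = 1 := by
    rw [map_rs _ hf]
    have h2 : (1 + 4 * y : S[X]).map (Ideal.Quotient.mk I) = 1 := by
      rw [Polynomial.map_add, Polynomial.map_mul, Polynomial.map_one]
      have h3 : (4 : S[X]).map (Ideal.Quotient.mk I) = 0 := by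
        have h5 : (4 : S[X]) = C 4 := (map_ofNat C 4).symm
        rw [h5, map_C, h40, C_0]
      rw [h3, zero_mul, add_zero]
    rw [h2, rs_one]
  have h2 : rs f (1 + 4 * y) - 1 ∈ I := by
    rw [← Ideal.Quotient.eq_zero_iff_mem, map_sub, h1, map_one, sub_self]
  obtain ⟨z, hz⟩ := Ideal.mem_span_singleton.1 h2
  exact ⟨z, by rw [← hz]; ring⟩

lemma tr2_sum {Ω : Type u} [Field Ω] [CharP Ω 2] (m d : ℕ) (v : Ω) :
    tr2 m (∑ i ∈ Finset.range d, v ^ (2 ^ m) ^ i) = tr2 (m * d) v := by
  haveI : Fact (Nat.Prime 2) := ⟨Nat.prime_two⟩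
  unfold tr2
  have h1 : ∀ l, (∑ i ∈ Finset.range d, v ^ (2 ^ m) ^ i) ^ 2 ^ l =
      ∑ i ∈ Finset.range d, v ^ 2 ^ (m * i + l) := by
    intro l
    rw [sum_pow_char_pow]
    refine Finset.sum_congr rfl fun i _ => ?_
    rw [← pow_mul, ← pow_mul, ← pow_add]
  rw [Finset.sum_congr rfl fun l _ => h1 l, Finset.sum_comm]
  induction d with
  | zero => simp
  | succ d ih =>
    have h2 : m * (d + 1) = m * d + m := by ring
    rw [Finset.sum_range_succ, h2, Finset.sum_range_add, ih (fun l => ?_)]
    rw [sum_pow_char_pow]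
    refine Finset.sum_congr rfl fun i _ => ?_
    rw [← pow_mul, ← pow_mul, ← pow_add]

lemma eval_frob_pow {K Ω : Type u} [Field K] [Fintype K] [Field Ω] [Algebra K Ω] (P : K[X]) (x : Ω)
    (i : ℕ) : (P.map (algebraMap K Ω)).eval (x ^ Fintype.card K ^ i) =
      ((P.map (algebraMap K Ω)).eval x) ^ Fintype.card K ^ i := by
  induction i with
  | zero => simp
  | succ i ih => rw [pow_succ, pow_mul, eval_frob, ih, ← pow_mul]

theorem main (hHEN : S_HEN.{u}) : S_TRC.{u} := by
  intro K _ _ _ m hm f y hf hI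
  haveI : Fact (Nat.Prime 2) := ⟨Nat.prime_two⟩
  set Ω := AlgebraicClosure K with hΩ
  set P := f.map (cc K) with hP
  have hPm : P.Monic := hf.map _
  have hPd : P.natDegree = f.natDegree := hf.natDegree_map _
  set j : WittVector 2 K →+* WittVector 2 Ω := WittVector.map (algebraMap K Ω) with hj
  have hcj : ∀ w, cc Ω (j w) = algebraMap K Ω (cc K w) := by
    intro w
    exact WittVector.map_coeff (p := 2) (algebraMap K Ω) w 0
  have hcomp : (cc Ω).comp j = (algebraMap K Ω).comp (cc K) := RingHom.ext hcj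
  have hfm : (f.map j).Monic := hf.map _
  have hred : (f.map j).map (cc Ω) = P.map (algebraMap K Ω) := by
    rw [map_map, hcomp, hP, map_map]
  obtain ⟨a, ha, hainj⟩ := hHEN Ω (f.map j) hfm (by
    rw [hred]
    exact (PerfectField.separable_of_irreducible hI).map)
  have h4u : ¬ IsUnit (4 : WittVector 2 K) := by
    intro h
    have h1 := h.map (cc K)
    rw [map_ofNat] at h1
    have h2 : (OfNat.ofNat 4 : K) = 2 * 2 := by norm_num
    have h3 : (2 : K) = 0 := CharP.cast_eq_zero K 2
    rw [h2, h3, zero_mul] at h1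
    exact not_isUnit_zero h1
  obtain ⟨z, hz⟩ := exists_z h4u f y hf
  refine ⟨z, by rw [hz, sub_self]; exact dvd_zero _, ?_⟩
  -- the value of `z`
  have hjz : algebraMap K Ω (cc K z) =
      ∑ i, ((y.map (cc K)).map (algebraMap K Ω)).eval (cc Ω (a i)) := by
    have h1 := congrArg j hz
    rw [map_rs j hf, map_add, map_one, map_mul, map_ofNat] at h1
    have h2 : (1 + 4 * y : (WittVector 2 K)[X]).map j = 1 + 4 * y.map j := by
      rw [Polynomial.map_add, Polynomial.map_mul, Polynomial.map_one, Polynomial.map_ofNat]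
    rw [h2, ha, rs_prod] at h1
    obtain ⟨t, ht⟩ := prod_one_add_four Finset.univ (fun i => (y.map j).eval (a i))
    have h3 : ∀ i, (1 + 4 * y.map j).eval (a i) = 1 + 4 * (y.map j).eval (a i) := by
      intro i
      rw [eval_add, eval_one, eval_mul, eval_ofNat]
    rw [Finset.prod_congr rfl fun i _ => h3 i, ht] at h1
    have h4 : (2 : WittVector 2 Ω) ≠ 0 := by
      have := WittVector.p_nonzero 2 Ω
      exact_mod_cast this
    have h5 : (4 : WittVector 2 Ω) ≠ 0 := by
      have h6 : (4 : WittVector 2 Ω) = 2 * 2 := by norm_num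
      rw [h6]
      exact mul_ne_zero h4 h4
    have h6 : j z = ∑ i, (y.map j).eval (a i) + 2 * t := by
      apply mul_left_cancel₀ h5
      linear_combination -h1
    have h7 := congrArg (cc Ω) h6
    have h8 : (OfNat.ofNat 2 : Ω) = 0 := CharP.cast_eq_zero Ω 2
    rw [hcj, map_add, map_mul, map_ofNat, h8, zero_mul, add_zero, map_sum] at h7
    rw [h7]
    refine Finset.sum_congr rfl fun i _ => ?_
    rw [← eval_map_apply, map_map, hcomp, map_map]
  -- the roots
  have hroots : P.map (algebraMap K Ω) = ∏ i, (X - C (cc Ω (a i))) := by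
    have h1 := congrArg (Polynomial.map (cc Ω)) ha
    rw [hred] at h1
    rw [h1, Polynomial.map_prod]
    simp
  have hd0 : 0 < P.natDegree := hI.natDegree_pos
  have hfd : (f.map j).natDegree = P.natDegree := by rw [hf.natDegree_map, hPd]
  set i₀ : Fin (f.map j).natDegree := ⟨0, by rw [hfd]; exact hd0⟩ with hi₀
  set β := cc Ω (a i₀) with hβ
  have hβ0 : aeval β P = 0 := by
    rw [aeval_def, ← eval_map, hroots, eval_prod]
    exact Finset.prod_eq_zero (Finset.mem_univ i₀) (by simp [hβ])
  obtain ⟨_, h2⟩ := roots_frob P hPm hI β hβ0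
  have hβe : (P.map (algebraMap K Ω)).eval β = 0 := by
    rw [eval_map]
    exact hβ0
  have hroots2 : ∏ i : Fin P.natDegree, (X - C (β ^ Fintype.card K ^ (i : ℕ))) =
      P.map (algebraMap K Ω) := by
    symm
    refine (eq_of_monic_of_dvd_of_natDegree_le (monic_prod_of_monic _ _ fun i _ =>
      monic_X_sub_C _) (hPm.map _) ?_ ?_)
    · refine Fintype.prod_dvd_of_coprime (pairwise_coprime_X_sub_C (fun i j hij => h2 i j hij))
        fun i => ?_
      rw [dvd_iff_isRoot, IsRoot, eval_frob_pow, hβe, zero_pow]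
      exact (pow_pos Fintype.card_pos _).ne'
    · rw [hPm.natDegree_map, natDegree_prod_of_monic _ _ fun i _ => monic_X_sub_C _,
        Finset.sum_congr rfl fun i _ => natDegree_X_sub_C _]
      simp
  have hms : Multiset.map (fun i => cc Ω (a i)) Finset.univ.val =
      Multiset.map (fun i : Fin P.natDegree => β ^ Fintype.card K ^ (i : ℕ)) Finset.univ.val := by
    have h3 : (∏ i, (X - C (cc Ω (a i)))).roots =
        Multiset.map (fun i => cc Ω (a i)) Finset.univ.val := by
      have h4 := roots_multiset_prod_X_sub_C (Multiset.map (fun i => cc Ω (a i)) Finset.univ.val)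
      rw [Multiset.map_map] at h4
      exact h4
    have h5 : (∏ i : Fin P.natDegree, (X - C (β ^ Fintype.card K ^ (i : ℕ)))).roots =
        Multiset.map (fun i : Fin P.natDegree => β ^ Fintype.card K ^ (i : ℕ)) Finset.univ.val := by
      have h4 := roots_multiset_prod_X_sub_C
        (Multiset.map (fun i : Fin P.natDegree => β ^ Fintype.card K ^ (i : ℕ)) Finset.univ.val)
      rw [Multiset.map_map] at h4
      exact h4
    rw [← h3, ← h5, hroots2, hroots]
  set g := (y.map (cc K)).map (algebraMap K Ω) with hg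
  have hsum : ∑ i, g.eval (cc Ω (a i)) =
      ∑ i ∈ Finset.range P.natDegree, g.eval β ^ (2 ^ m) ^ i := by
    have h3 := congrArg (fun s : Multiset Ω => (s.map fun x => g.eval x).sum) hms
    simp only [Multiset.map_map] at h3
    have h4 : ∑ i, g.eval (cc Ω (a i)) =
        ∑ i : Fin P.natDegree, g.eval (β ^ Fintype.card K ^ (i : ℕ)) := h3
    rw [h4, Finset.sum_range]
    refine Finset.sum_congr rfl fun i _ => ?_
    rw [hg, eval_frob_pow, hm]
  have htr : algebraMap K Ω (tr2 m (cc K z)) = tr2 (m * f.natDegree) (g.eval β) := by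
    have h3 : algebraMap K Ω (tr2 m (cc K z)) = tr2 m (algebraMap K Ω (cc K z)) := by
      unfold tr2
      rw [map_sum]
      exact Finset.sum_congr rfl fun i _ => map_pow _ _ _
    rw [h3, hjz, hsum, tr2_sum, hPd]
  have hmin : P = minpoly K β := minpoly.eq_of_irreducible_of_monic hI hβ0 hPm
  have hdvd : P ∣ tr2 (m * f.natDegree) (y.map (cc K)) ↔
      tr2 (m * f.natDegree) (g.eval β) = 0 := by
    conv_lhs => rw [hmin]
    rw [minpoly.dvd_iff]
    have h3 : aeval β (tr2 (m * f.natDegree) (y.map (cc K))) =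
        tr2 (m * f.natDegree) (g.eval β) := by
      unfold tr2
      rw [map_sum]
      refine Finset.sum_congr rfl fun i _ => ?_
      rw [map_pow, hg, eval_map, aeval_def]
    rw [h3]
  rw [hdvd, ← htr, map_eq_zero]

end Pool.Agent.Helper31.C2.TRC
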